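import Pool.Agent.X250.Sph.DelVert
import Pool.Agent.Y132.SI.Free

/-!
# `ℓ²`-homology above the middle: deleting disjoint edges and vertices from a flag sphere

Let `S` be the flag complex of a finite graph `G`, and suppose that `S` is a homology manifold with the homology of the
`(n - 1)`-sphere, and that it is in the class `AM n` of the starting library (which contains the order complexes of the
Gorenstein* posets, for example all barycentric subdivisions of triangulated spheres).  Let `H` be a set of edges, such
that no two edges of `H` with a common vertex lie in a common face of `S`.  If one subdivides all edges of `H` then one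
gets a flag complex `S'` with the same geometric realization, and the flag complex of `G \ H` is the full subcomplex of
`S'` on the old vertices.  So if `S` is a triangulated sphere then the right-angled Coxeter group of `G \ H`, and all its
special subgroups, act geometrically on contractible `n`-manifolds with boundary, and Q1 predicts that their
`ℓ²`-homology vanishes in the degrees above `n / 2`.

We show this, and we compute the `ℓ²`-Betti numbers of the group of the graph `G'` which one gets from `G` by deleting the
edges of `H` and a set `U` of pairwise non-adjacent vertices, which are not on edges of `H`: they are zero in all degrees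
different from the integral part `m` of `n / 2`, and the one in the degree `m` is, for `n = 2 m`, the sum of the numbers
`|χ(W_{lk T})| / 2 ^ |T|` over the faces `T` of `S` which are unions of edges of `H`, and for `n = 2 m + 1` half the sum of
the numbers `|χ|` for the links of the vertices of `U`, without the edges of `H`.
-/

set_option autoImplicit false

namespace Pool.Agent.Results.MP_ea75ba_gt.DeletedEdges

open Pool.Agent.W907.SG Pool.Agent.W907.SM Pool.Agent.TH652.Above Pool.Agent.Y132.SI Pool.Agent.X250.Sph

open scoped Classical in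
/-- Let the flag complex of `G` be a real homology `(n - 1)`-sphere of the class `AM n`, let `H` be a graph on the
same vertices such that in each triangle of `G` there is at most one edge of `H`, and let `U` be a set of vertices which
are pairwise not adjacent in `G` and not on edges of `H`.  Let `G'` be the graph induced by `G \ H` on the complement of
`U`.
(1) The reduced `ℓ²`-homology of the Davis complex of the right-angled Coxeter group `W G'` vanishes in all degrees
`i ≠ ⌊n / 2⌋`, and the one of all special subgroups of `W (G \ H)` vanishes in all degrees `i` with `2 i > n`.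
(2) For each `ε > 0` there is a finite set `E` of nontrivial elements of `W G'` such that for every subgroup `K` of
finite index which contains no conjugate of an element of `E`, and for all `i`, the `i`-th real Betti number of `K` (the
dimension of the space of the `K`-invariant real harmonic `i`-chains of the Davis complex) differs by at most
`ε [W G' : K]` from `0`, if `i ≠ ⌊n / 2⌋`, or from `(-1)^i χ(W G') [W G' : K]`, if `i = ⌊n / 2⌋`.
(3) If `n = 2 m` then `(-1)^m χ(W G')` is the sum of the `|χ(W_{lk T})| / 2 ^ |T|` over the faces `T` of `G` which are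
unions of edges of `H` (the empty face included), `lk T` being the link in `G`; and the reduced `ℓ²`-homology of the Davis
complex of `W G'` vanishes in all degrees if and only if the one of `W_{lk T}` does for all these faces `T`.
(4) If `n = 2 m + 1` then `(-1)^m χ(W G')` is half the sum, over the vertices `v` in `U`, of the numbers `|χ|` for the
groups of the graphs induced by `G \ H` on the set of the neighbours of `v` in `G`; and the reduced `ℓ²`-homology of the
Davis complex of `W G'` vanishes in all degrees if and only if it does for these groups. -/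
theorem result : ∀ (n : ℕ) (V : Type) [Fintype V] [LinearOrder V] (G H : SimpleGraph V) (U : Finset V),
    HSph n G → AM n G →
    (∀ u v z, G.Adj u v → G.Adj u z → G.Adj v z → H.Adj u v → ¬ H.Adj u z) →
    (∀ u ∈ U, ∀ v ∈ U, ¬ G.Adj u v) → (∀ u ∈ U, ∀ x, ¬ H.Adj u x) →
    ((∀ i : ℕ, i ≠ n / 2 → L2Van ((G \ H).induce ((U : Set V)ᶜ)) i) ∧
      ∀ (A : Set V) (i : ℕ), n < 2 * i → LV ((G \ H).induce A) i) ∧
    (∀ ε : ℝ, 0 < ε → ∃ E : Finset (W ((G \ H).induce ((U : Set V)ᶜ))), 1 ∉ E ∧
      ∀ K : Subgroup (W ((G \ H).induce ((U : Set V)ᶜ))), K.FiniteIndex → (∀ g ∈ E, ∀ x, x * g * x⁻¹ ∉ K) →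
        ∀ i : ℕ, |(Module.finrank ℝ (HInv ((G \ H).induce ((U : Set V)ᶜ)) K i) : ℝ) -
          (if i = n / 2 then (-1) ^ i * (chiW ((G \ H).induce ((U : Set V)ᶜ)) : ℝ) else 0) * K.index| ≤
            ε * K.index) ∧
    (∀ m : ℕ, n = 2 * m →
      (-1) ^ m * chiW ((G \ H).induce ((U : Set V)ᶜ)) =
        ∑ T ∈ unionFaces G H, |chiW (G.induce (lk G T))| / 2 ^ T.card ∧
      ((∀ i : ℕ, L2Van ((G \ H).induce ((U : Set V)ᶜ)) i) ↔
        ∀ T ∈ unionFaces G H, ∀ i : ℕ, L2Van (G.induce (lk G T)) i)) ∧
    ∀ m : ℕ, n = 2 * m + 1 →
      (-1) ^ m * chiW ((G \ H).induce ((U : Set V)ᶜ)) =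
        1 / 2 * ∑ v ∈ U, |chiW ((G \ H).induce (G.neighborSet v))| ∧
      ((∀ i : ℕ, L2Van ((G \ H).induce ((U : Set V)ᶜ)) i) ↔
        ∀ v ∈ U, ∀ i : ℕ, L2Van ((G \ H).induce (G.neighborSet v)) i) := by
  intro n V _ _ G H U hS hA hH hU hUH
  have hP := P_of_AM hA
  obtain ⟨h1, h2⟩ := del_all hS hP hH
  have h3 : ∀ i : ℕ, i ≠ n / 2 → L2Van ((G \ H).induce ((U : Set V)ᶜ)) i := by
    intro i hi
    by_cases hi1 : n < 2 * i
    · exact h2 _ i hi1 _ _
    · exact del_vert hS hP hH U hU hUH i (by omega) (by omega) _ _
  have hlink : ∀ (v : V) (i : ℕ), 2 * i + 1 ≠ n → LV ((G \ H).induce (G.neighborSet v)) i := fun v i hi =>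
    lv_set (lk_one v).symm (del_link hS hP hH v i hi)
  have h4 := chi_vert (G := G) (H := H) U hU hUH
  refine ⟨⟨h3, h2⟩, fun ε hε => ?_, ?_, ?_⟩
  · obtain ⟨E, h5, h6⟩ := growth_free ((G \ H).induce ((U : Set V)ᶜ)) (2 * (n / 2))
      (fun i hi => h3 i (by omega)) ε hε
    refine ⟨E, h5, fun K hK hE i => ?_⟩
    have h7 := h6 K hK hE i
    have h8 : (2 * i = 2 * (n / 2)) ↔ i = n / 2 := by omega
    rw [if_congr h8 rfl rfl] at h7
    exact h7
  · rintro m rfl
    have h5 : ∀ v ∈ U, chiW ((G \ H).induce (G.neighborSet v)) = 0 := fun v _ =>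
      (l2eul _ ((G \ H).induce (G.neighborSet v)) m fun i _ => hlink v i (by omega) _ _).1
        fun i => hlink v i (by omega) _ _
    rw [Finset.sum_eq_zero h5, mul_zero, add_zero] at h4
    have h6 : (∀ i, L2Van ((G \ H).induce ((U : Set V)ᶜ)) i) ↔ chiW ((G \ H).induce ((U : Set V)ᶜ)) = 0 :=
      l2eul _ _ m fun i hi => h3 i (by omega)
    rw [h6, h4]
    exact ⟨chi_del hS hP hH, chi_del_zero hS hP hH⟩
  · rintro m rfl
    have h5 : chiW (G \ H) = 0 := (l2eul V (G \ H) m fun i _ => h1 i (by omega)).1 fun i => h1 i (by omega)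
    rw [h5, zero_add] at h4
    have h6 : (∀ i, L2Van ((G \ H).induce ((U : Set V)ᶜ)) i) ↔ chiW ((G \ H).induce ((U : Set V)ᶜ)) = 0 :=
      l2eul _ _ m fun i hi => h3 i (by omega)
    have h7 : ∀ v, 0 ≤ (-1 : ℚ) ^ m * chiW ((G \ H).induce (G.neighborSet v)) := fun v =>
      chi_sign _ fun i hi => hlink v i (by omega) _ _
    have h8 : ∀ v, |chiW ((G \ H).induce (G.neighborSet v))| =
        (-1 : ℚ) ^ m * chiW ((G \ H).induce (G.neighborSet v)) := by
      intro v
      rw [← abs_of_nonneg (h7 v), abs_mul, abs_pow, abs_neg, abs_one, one_pow, one_mul]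
    have h9 : (-1) ^ m * chiW ((G \ H).induce ((U : Set V)ᶜ)) =
        1 / 2 * ∑ v ∈ U, |chiW ((G \ H).induce (G.neighborSet v))| := by
      rw [h4, Finset.sum_congr rfl fun v _ => h8 v, ← Finset.mul_sum]
      ring
    refine ⟨h9, ?_⟩
    have h10 : chiW ((G \ H).induce ((U : Set V)ᶜ)) = 0 ↔
        (-1 : ℚ) ^ m * chiW ((G \ H).induce ((U : Set V)ᶜ)) = 0 := by
      rw [mul_eq_zero, or_iff_right (pow_ne_zero _ (by norm_num))]
    rw [h6, h10, h9, mul_eq_zero, or_iff_right (by norm_num), Finset.sum_eq_zero_iff_of_nonneg
      (fun v _ => abs_nonneg _)]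
    refine forall₂_congr fun v _ => ?_
    rw [abs_eq_zero]
    exact (l2eul _ ((G \ H).induce (G.neighborSet v)) m fun i hi => hlink v i (by omega) _ _).symm

end Pool.Agent.Results.MP_ea75ba_gt.DeletedEdges
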