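import Pool.Agent.X250.Sph.OneDeg

/-!
# Vanishing above the middle for all special subgroups: one degree and the links suffice

Let `G` be a finite graph and `W = W G` its right-angled Coxeter group.  If the flag complex of `G` is a full
subcomplex of a flag triangulated `(n-1)`-sphere then `W` acts geometrically on a contractible `n`-manifold with
boundary, so that its cocompact action dimension is at most `n`, and the same holds for all special subgroups `W_A`
(generated by the vertices in a set `A`).  So Q1 predicts that the `ℓ²`-homology of all `W_A` vanishes in all degrees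
`≥ k` if `n = 2 k - 2` or `n = 2 k - 1`.

We show that for every finite graph this vanishing (for all `A` and all degrees `≥ k`) is equivalent to the
vanishing in the single degree `k` for the links of the faces, the whole complex included (it is the link of the empty
face), and that the condition for the links of the nonempty faces suffices in the degrees `> k`.  For homology spheres
the condition on the whole complex can be replaced by the Singer conjecture for `W` (if `n = 2 k - 1`) and by the
equation `χ(W) = 0` (if `n = 2 k`).
-/

set_option autoImplicit false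

namespace Pool.Agent.Results.MP_ea75ba_gt.OneDegreeLinks

open Pool.Agent.W907.SG Pool.Agent.W907.SM Pool.Agent.TH652.Above Pool.Agent.Y132.SI Pool.Agent.X250.Sph

/-- Let `G` be a finite graph and `1 ≤ k`.
(1) The reduced `ℓ²`-homology of the Davis complex of `W_A` vanishes in all degrees `≥ k` for all sets `A` of
vertices if and only if for all cliques `T` of `G` (the empty one included) the one of `W_{lk T}` vanishes in the
degree `k`.
Suppose now that for all nonempty cliques `T` the reduced `ℓ²`-homology for `W_{lk T}` vanishes in the degree `k`.
(2) Then for all `A` it vanishes for `W_A` in all degrees `> k`, and for each `ε > 0` there is a finite set `E` of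
nontrivial elements of `W G` such that for every subgroup `H` of finite index which contains no conjugate of an
element of `E`, all sets `A` of vertices and all `i > k`, the `i`-th real Betti number of the quotient by `H` of the
union of the translates of the Davis complex of `W_A` is at most `ε [W G : H]`.
(3) If the flag complex of `G` is a real homology sphere of dimension `2 k - 2` then the reduced `ℓ²`-homology of
all `W_A` vanishes in all degrees `≥ k` if and only if the one of `W G` vanishes in all degrees.
(4) If the flag complex of `G` is a real homology sphere of dimension `2 k - 1` then the reduced `ℓ²`-homology of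
`W G` vanishes in all degrees `≠ k`, the number `(-1)^k χ(W G)` is not negative, and the reduced `ℓ²`-homology of all
`W_A` vanishes in all degrees `≥ k` if and only if `χ(W G) = 0`. -/
theorem result : ∀ (k : ℕ) (V : Type) [Fintype V] [LinearOrder V] (G : SimpleGraph V), 1 ≤ k →
    ((∀ (A : Set V) (i : ℕ), k ≤ i → LV (G.induce A) i) ↔
      ∀ T : Finset V, G.IsClique (T : Set V) → LV (G.induce (lk G T)) k) ∧
    ((∀ T : Finset V, G.IsClique (T : Set V) → T.Nonempty → LV (G.induce (lk G T)) k) →
      (∀ (A : Set V) (i : ℕ), k < i → LV (G.induce A) i) ∧
      (∀ ε : ℝ, 0 < ε → ∃ E : Finset (W G), (1 : W G) ∉ E ∧ ∀ H : Subgroup (W G), H.FiniteIndex →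
        (∀ g ∈ E, ∀ x : W G, x * g * x⁻¹ ∉ H) → ∀ (A : Set V) (i : ℕ), k < i →
          (Module.finrank ℝ (HInvOn G A H i) : ℝ) ≤ ε * H.index) ∧
      (HSph (2 * k - 1) G →
        ((∀ (A : Set V) (i : ℕ), k ≤ i → LV (G.induce A) i) ↔ ∀ i : ℕ, L2Van G i)) ∧
      (HSph (2 * k) G → (∀ i : ℕ, i ≠ k → L2Van G i) ∧ 0 ≤ (-1 : ℚ) ^ k * chiW G ∧
        ((∀ (A : Set V) (i : ℕ), k ≤ i → LV (G.induce A) i) ↔ chiW G = 0))) := by
  intro k V _ _ G hk
  refine ⟨⟨fun h T _ => h _ k le_rfl, fun h A i hi => ?_⟩, fun h => ⟨fun A i hi => van_above h i hi A, fun ε hε =>
    growth_all (f := fun i => k < i) (fun A i hi => van_above h i hi A) ε hε, fun hS => ?_, fun hS => ?_⟩⟩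
  · rcases hi.eq_or_lt with rfl | hi
    · have h0 : L2Van G k := by
        have h1 := h ∅ (by simp)
        rw [lk_empty] at h1
        exact (lv_univ G k).1 h1 _ _
      exact van_at (fun T hT _ => h T hT) h0 A
    · exact van_above (fun T hT _ => h T hT) i hi A
  · obtain ⟨m, rfl⟩ := Nat.exists_eq_add_of_le' hk
    have hS' : HSph (2 * m + 1) G := hSph_congr (by omega) hS
    constructor
    · intro h1 i
      have h2 : L2Van G (m + 1) := (lv_univ G _).1 (h1 Set.univ _ le_rfl) _ _
      by_cases h3 : i = m + 1
      · exact h3 ▸ h2
      · by_cases h4 : i = m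
        · rw [h4]
          exact Pool.Agent.TH652.Dual.l2_duality (n := 2 * m + 1) hS' (i := m) (j := m + 1) (by omega) h2
        · exact van_odd h hS' h4 h3
    · intro h1 A i hi
      rcases hi.eq_or_lt with rfl | hi
      · exact van_at h (h1 _) A
      · exact van_above h i hi A
  · have h1 : ∀ i : ℕ, i ≠ k → L2Van G i := fun i hi => van_even h hS hi
    refine ⟨h1, (gap_of hS h1).1, fun h2 => ?_, fun h2 A i hi => ?_⟩
    · refine (gap_of hS h1).2.1.1 fun i => ?_
      by_cases hi : i = k
      · rw [hi]
        exact (lv_univ G _).1 (h2 Set.univ _ le_rfl) _ _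
      · exact h1 i hi
    · rcases hi.eq_or_lt with rfl | hi
      · exact van_at h ((gap_of hS h1).2.1.2 h2 _) A
      · exact van_above h i hi A

end Pool.Agent.Results.MP_ea75ba_gt.OneDegreeLinks
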