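import Pool.Agent.X250.Sph.SubBound

/-!
# `ℓ²`-homology above the middle: bounds by the Charney-Davis quantities of the links

Let `S` be the flag complex of a finite graph `G`, and suppose that `S` is a homology manifold with the homology of the
`(n - 1)`-sphere.  For a set `A` of vertices let `W_A` be the special subgroup of the right-angled Coxeter group `W G`.
If `S` is a triangulated sphere then `W_A` acts geometrically on a contractible `n`-manifold with boundary (a regular
neighbourhood of the Davis complex of `W_A` in the one of `W G`, which is a contractible `n`-manifold).  So Q1 predicts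
that the `ℓ²`-homology of `W_A` vanishes in the degrees `i > n / 2`.

Let `n = 2 j + k`.  If the links of the faces with `k` vertices are in the class `AM (2 j)` then the vanishing holds in
the degrees `i > n - j` for all `A`.  We bound the homology in the degree `n - j`, relative to a subset `D` of `A`, by
the sum of the numbers `(-1)^j χ(W_{lk T}) / 2 ^ k ≥ 0` over the faces `T` of `A` with `k` vertices which are not
contained in `D`, and give a criterion for the vanishing.  For `k = 1` and `k = 2` these are all degrees above the middle.
-/

set_option autoImplicit false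

namespace Pool.Agent.Results.MP_ea75ba_gt.SubcomplexBounds

open Pool.Agent.W907.SG Pool.Agent.W907.SM Pool.Agent.TH652.Above Pool.Agent.Y132.SI Pool.Agent.X250.Sph

/-- Let `n = 2 j + k` with `1 ≤ k`, and let the flag complex of `G` be a real homology sphere of dimension `n - 1`
such that, if `2 ≤ j`, the links of the faces with `k` vertices are in the class `AM (2 j)`.
(1) For each `ε > 0` there is a finite set `E` of nontrivial elements of `W G` such that for every subgroup `H` of
finite index of `W G` which contains no conjugate of an element of `E`, for all sets `D ⊆ A` of vertices and all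
`i > n - j`: the `i`-th real Betti number `b_i(A)` of the quotient by `H` of the union of the translates of the Davis
complex of `W_A` is at most `ε [W G : H]`, and `b_{n-j}(A) ≤ b_{n-j}(D) + (S(D, A) / 2 ^ k + ε) [W G : H]`, where
`S(D, A)` is the sum of the numbers `(-1)^j χ(W_{lk T})` over the faces `T` with `k` vertices which are contained in
`A` and not contained in `D`; these numbers are not negative.
(2) For all `A` the reduced `ℓ²`-homology of the Davis complex of `W_A` vanishes in the degrees `i > n - j`.
(3) Let `D ⊆ A`, and let it vanish for `W_D` in the degree `n - j`.  Suppose that for each face `T` with `k` vertices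
which is contained in `A` and not contained in `D` the number `χ(W_{lk T})` is zero, or the reduced `ℓ²`-homology of
the Davis complex of `W_{lk T ∩ A}` vanishes in the degree `j`.  Then the one of `W_A` vanishes in all degrees
`i ≥ n - j`; so if `k ≤ 2` then it vanishes in all degrees `i > n / 2`. -/
theorem result : ∀ (j k : ℕ) (V : Type) [Fintype V] [LinearOrder V] (G : SimpleGraph V), 1 ≤ k →
    HSph (2 * j + k) G →
    (2 ≤ j → ∀ T : Finset V, G.IsClique (T : Set V) → T.card = k → AM (2 * j) (G.induce (lk G T))) →
    (∀ T : Finset V, G.IsClique (T : Set V) → T.card = k → 0 ≤ chiLk G j T) ∧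
    (∀ ε : ℝ, 0 < ε → ∃ E : Finset (W G), (1 : W G) ∉ E ∧ ∀ H : Subgroup (W G), H.FiniteIndex →
      (∀ g ∈ E, ∀ x : W G, x * g * x⁻¹ ∉ H) → ∀ A : Set V,
        (∀ i : ℕ, j + k < i → (Module.finrank ℝ (HInvOn G A H i) : ℝ) ≤ ε * H.index) ∧
        ∀ D : Set V, D ⊆ A → (Module.finrank ℝ (HInvOn G A H (j + k)) : ℝ) ≤
          Module.finrank ℝ (HInvOn G D H (j + k)) +
            ((1 / 2) ^ k * (∑ T ∈ facesIn G k A D, (chiLk G j T : ℝ)) + ε) * H.index) ∧
    (∀ (A : Set V) (i : ℕ), j + k < i → LV (G.induce A) i) ∧
    (∀ D A : Set V, D ⊆ A → LV (G.induce D) (j + k) →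
      (∀ T ∈ facesIn G k A D, chiLk G j T = 0 ∨ LV (G.induce (lk G T ∩ A)) j) →
      (∀ i : ℕ, j + k ≤ i → LV (G.induce A) i) ∧
        (k ≤ 2 → ∀ i : ℕ, 2 * j + k < 2 * i → LV (G.induce A) i)) := by
  intro j k V _ _ G hk hS hA
  obtain ⟨k, rfl⟩ := Nat.exists_eq_add_of_le' hk
  have hP : FaceP j (k + 1) G := FaceP.of hS hA
  refine ⟨fun T hT hT' => hP.chiLk_nonneg hS hT hT', fun ε hε => hP.growthA hS ε hε, fun A i hi => hP.above A hi, fun D A hDA hD h0 => ?_⟩
  have h1 : ∀ i : ℕ, j + (k + 1) ≤ i → LV (G.induce A) i := fun i hi => by
    rcases hi.eq_or_lt with rfl | hi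
    · exact hP.vanishA hS hDA hD h0
    · exact hP.above A hi
  exact ⟨h1, fun hk2 i hi => h1 i (by omega)⟩

end Pool.Agent.Results.MP_ea75ba_gt.SubcomplexBounds
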